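import Pool.Agent.H18Bill.Long
import Pool.Agent.H18Bill.Body

/-!
# Shortest billiard trajectories in rounded fat disk-polygons

The full positive answer in terms of cyclic polygonal paths, Mathlib angles and the inradius
as a supremum.
-/

set_option autoImplicit false
open scoped InnerProductSpace EuclideanGeometry

namespace Pool.Agent.Results.MP_217bbd_co.TwoBounce

/-- The Euclidean plane. -/
abbrev Plane := EuclideanSpace ℝ (Fin 2)

/-- `D` is the disk-polygon with generating unit disks centred at the points of the finite set `C`: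
it is their intersection, it has non-empty interior, and none of them can be deleted. -/
structure IsDiskPolygon (C : Finset Plane) (D : Set Plane) : Prop where
  eq : D = ⋂ c ∈ C, Metric.closedBall c 1
  nonempty : C.Nonempty
  interior_nonempty : (interior D).Nonempty
  irredundant : ∀ c ∈ C, D ⊂ ⋂ c' ∈ C.erase c, Metric.closedBall c' 1

/-- The disk-polygon generated by `C` is fat: any two centres are at distance at most one. -/
def IsFat (C : Finset Plane) : Prop := ∀ c ∈ C, ∀ c' ∈ C, dist c c' ≤ 1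

/-- The inradius: the supremum of the radii of the circular disks contained in `D`. -/
noncomputable def inradius (D : Set Plane) : ℝ :=
  sSup {r : ℝ | 0 < r ∧ ∃ x, Metric.closedBall x r ⊆ D}

/-- The `ε`-rounded body: the union of all circular disks of radius `ε` contained in `D`. -/
def rounded (D : Set Plane) (ε : ℝ) : Set Plane :=
  ⋃ x ∈ {x | Metric.closedBall x ε ⊆ D}, Metric.closedBall x ε

/-- The closed polygonal path with the `n` vertices `p 0, p 1, …, p (n - 1)` (in this cyclic order)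
and `n ≥ 2` non-degenerate sides is a generalized billiard trajectory of `K`: all vertices lie on
the boundary of `K`, and at every vertex `p i` there is a point `z` on the inner bisector of the
angle between the two sides meeting at `p i` such that the line through `p i` perpendicular to the
bisector is a supporting line of `K` (that is, `K` lies in one of its two closed half planes). -/
def IsGenBilliard (K : Set Plane) (n : ℕ) (p : ZMod n → Plane) : Prop :=
  2 ≤ n ∧ (∀ i, p i ∈ frontier K) ∧ (∀ i, p i ≠ p (i + 1)) ∧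
    ∀ i, ∃ z, z ≠ p i ∧
      ∠ (p (i - 1)) (p i) z = ∠ (p (i - 1)) (p i) (p (i + 1)) / 2 ∧
      ∠ z (p i) (p (i + 1)) = ∠ (p (i - 1)) (p i) (p (i + 1)) / 2 ∧
      ((∀ x ∈ K, 0 ≤ ⟪z - p i, x - p i⟫_ℝ) ∨ (∀ x ∈ K, ⟪z - p i, x - p i⟫_ℝ ≤ 0))

/-- The length of the closed polygonal path. -/
noncomputable def length (n : ℕ) (p : ZMod n → Plane) : ℝ :=
  ∑ i ∈ Finset.range n, dist (p (i : ZMod n)) (p ((i : ZMod n) + 1))

/-- A generalized billiard trajectory of least length among all of them. -/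
def IsShortest (K : Set Plane) (n : ℕ) (p : ZMod n → Plane) : Prop :=
  IsGenBilliard K n p ∧ ∀ (m : ℕ) (q : ZMod m → Plane), IsGenBilliard K m q → length n p ≤ length m q

open Pool.Agent.H18Bill

private lemma rounded_eq (C : Finset Plane) {D : Set Plane} {ε : ℝ} (hε : 0 < ε)
    (hD : D = ⋂ c ∈ C, Metric.closedBall c (1:ℝ)) : rounded D ε = KSet C ε := by
  rw [rounded, hD]
  ext y
  simp only [Set.mem_iUnion, Set.mem_ofPred_eq, exists_prop]
  constructor
  · rintro ⟨x, hx, hy⟩
    refine ⟨x, ?_, by rw [← dist_eq_norm]; exact hy⟩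
    intro c hc
    apply (ball_sub_iff hε).1
    exact hx.trans (Set.biInter_subset_of_mem hc)
  · rintro ⟨x, hx, hy⟩
    refine ⟨x, ?_, by rw [Metric.mem_closedBall, dist_eq_norm]; exact hy⟩
    apply Set.subset_iInter₂
    intro c hc
    exact (ball_sub_iff hε).2 (hx c hc)

/-- the inradius is attained. -/
private lemma exists_ball {C : Finset Plane} {D : Set Plane} (hD : IsDiskPolygon C D) {ε : ℝ}
    (hr : ε ≤ inradius D) : (ASet C ε).Nonempty := by
  obtain ⟨c0, hc0⟩ := hD.nonempty
  have hDc : IsCompact D := by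
    rw [hD.eq]
    refine (isCompact_closedBall c0 (1:ℝ)).of_isClosed_subset ?_ (Set.biInter_subset_of_mem hc0)
    exact isClosed_biInter fun c _ => Metric.isClosed_closedBall
  have hDne : D.Nonempty := hD.interior_nonempty.mono interior_subset
  obtain ⟨f, hf⟩ : ∃ f : Plane → ℝ, ∀ x, f x = C.sup' hD.nonempty (fun c => dist x c) :=
    ⟨_, fun _ => rfl⟩
  have hfc : Continuous f := by
    have : f = fun x => C.sup' hD.nonempty (fun c => dist x c) := funext hf
    rw [this]
    exact Continuous.finset_sup'_apply _ (fun c _ => by fun_prop)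
  obtain ⟨x0, hx0, hmin⟩ := hDc.exists_isMinOn hDne hfc.continuousOn
  have key : ∀ r : ℝ, (0 < r ∧ ∃ x, Metric.closedBall x r ⊆ D) → r ≤ 1 - f x0 := by
    rintro r ⟨hr0, x, hx⟩
    have hxD : x ∈ D := hx (Metric.mem_closedBall_self hr0.le)
    have h1 : f x0 ≤ f x := hmin hxD
    have h2 : f x ≤ 1 - r := by
      rw [hf]
      refine Finset.sup'_le _ _ fun c hc => ?_
      rw [dist_eq_norm]
      apply (ball_sub_iff hr0).1
      rw [hD.eq] at hx
      exact hx.trans (Set.biInter_subset_of_mem hc)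
    linarith
  have hne : {r : ℝ | 0 < r ∧ ∃ x, Metric.closedBall x r ⊆ D}.Nonempty := by
    obtain ⟨x, hx⟩ := hD.interior_nonempty
    rw [mem_interior_iff_mem_nhds, Metric.mem_nhds_iff] at hx
    obtain ⟨r, hr, hx⟩ := hx
    exact ⟨r / 2, by positivity, x, (Metric.closedBall_subset_ball (by linarith)).trans hx⟩
  have h3 : inradius D ≤ 1 - f x0 := csSup_le hne key
  refine ⟨x0, fun c hc => ?_⟩
  have h4 : dist x0 c ≤ f x0 := by
    rw [hf]
    exact Finset.le_sup' (fun c => dist x0 c) hc
  rw [← dist_eq_norm]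
  linarith

private lemma front_of_normal {K : Set Plane} (hK : IsClosed K) {z v : Plane} (hz : IsN K z v) :
    z ∈ frontier K := by
  rw [hK.frontier_eq]
  refine ⟨hz.1, fun hint => ?_⟩
  rw [mem_interior_iff_mem_nhds, Metric.mem_nhds_iff] at hint
  obtain ⟨r, hr, hball'⟩ := hint
  have h1 : z + (r / 2) • v ∈ K := by
    apply hball'
    rw [Metric.mem_ball, dist_eq_norm, add_sub_cancel_left, norm_smul, hz.2.1, mul_one,
      Real.norm_eq_abs, abs_of_pos (by positivity)]
    linarith
  have h2 := hz.2.2 _ h1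
  rw [add_sub_cancel_left, inner_smul_right, real_inner_self_eq_norm_sq, hz.2.1] at h2
  linarith

/-- the bisector condition gives a normal and the reflection law. -/
private lemma reflect {K : Set Plane} {a p b z : Plane} (hp : p ∈ K) (hap : a ≠ p) (hbp : b ≠ p)
    (hz : z ≠ p) (h1 : ∠ a p z = ∠ a p b / 2) (h2 : ∠ z p b = ∠ a p b / 2)
    (h3 : (∀ x ∈ K, 0 ≤ ⟪z - p, x - p⟫_ℝ) ∨ (∀ x ∈ K, ⟪z - p, x - p⟫_ℝ ≤ 0)) :
    ∃ v, IsN K p v ∧ ‖b - p‖⁻¹ • (b - p) =
      (2 * ⟪v, ‖a - p‖⁻¹ • (a - p)⟫_ℝ) • v - ‖a - p‖⁻¹ • (a - p) := by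
  have hA : 0 < ‖a - p‖ := norm_pos_iff.2 (sub_ne_zero.2 hap)
  have hB : 0 < ‖b - p‖ := norm_pos_iff.2 (sub_ne_zero.2 hbp)
  have hZ : 0 < ‖z - p‖ := norm_pos_iff.2 (sub_ne_zero.2 hz)
  obtain ⟨α, hα⟩ : ∃ α, α = ‖a - p‖⁻¹ • (a - p) := ⟨_, rfl⟩
  obtain ⟨β, hβ⟩ : ∃ β, β = ‖b - p‖⁻¹ • (b - p) := ⟨_, rfl⟩
  obtain ⟨w, hw⟩ : ∃ w, w = ‖z - p‖⁻¹ • (z - p) := ⟨_, rfl⟩
  have nα : ‖α‖ = 1 := by
    rw [hα, norm_smul, norm_inv, norm_norm, inv_mul_cancel₀ hA.ne']
  have nβ : ‖β‖ = 1 := by
    rw [hβ, norm_smul, norm_inv, norm_norm, inv_mul_cancel₀ hB.ne']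
  have nw : ‖w‖ = 1 := by
    rw [hw, norm_smul, norm_inv, norm_norm, inv_mul_cancel₀ hZ.ne']
  have hcos : ∀ s t : Plane, ⟪‖s‖⁻¹ • s, ‖t‖⁻¹ • t⟫_ℝ =
      Real.cos (InnerProductGeometry.angle s t) := by
    intro s t
    rw [InnerProductGeometry.cos_angle, inner_smul_left, inner_smul_right]
    simp only [conj_trivial]
    rw [div_eq_mul_inv, mul_inv]
    ring
  have e1 : ⟪α, w⟫_ℝ = Real.cos (∠ a p b / 2) := by
    rw [hα, hw, hcos, ← h1]; rfl
  have e2 : ⟪w, β⟫_ℝ = Real.cos (∠ a p b / 2) := by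
    rw [hβ, hw, hcos, ← h2]; rfl
  have e3 : ⟪α, β⟫_ℝ = 2 * Real.cos (∠ a p b / 2) ^ 2 - 1 := by
    rw [hα, hβ, hcos, ← Real.cos_two_mul, mul_div_cancel₀ _ two_ne_zero]; rfl
  obtain ⟨c, hc⟩ : ∃ c, c = Real.cos (∠ a p b / 2) := ⟨_, rfl⟩
  rw [← hc] at e1 e2 e3
  have e4 : α + β = (2 * c) • w := by
    have h : ‖α + β - (2 * c) • w‖ ^ 2 = 0 := by
      rw [← real_inner_self_eq_norm_sq]
      have e1' : ⟪w, α⟫_ℝ = c := by rw [real_inner_comm, e1]
      have e2' : ⟪β, w⟫_ℝ = c := by rw [real_inner_comm, e2]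
      have e3' : ⟪β, α⟫_ℝ = 2 * c ^ 2 - 1 := by rw [real_inner_comm, e3]
      simp only [inner_sub_left, inner_sub_right, inner_add_left, inner_add_right,
        inner_smul_left, inner_smul_right, real_inner_self_eq_norm_sq, nα, nβ, nw, e1, e2, e3,
        e1', e2', e3', conj_trivial]
      ring
    exact sub_eq_zero.1 (norm_eq_zero.1 (pow_eq_zero_iff two_ne_zero |>.1 h))
  have e5 : β = (2 * c) • w - α := by rw [← e4]; abel
  rcases h3 with h3 | h3
  · refine ⟨-w, ⟨hp, by rw [norm_neg, nw], fun x hx => ?_⟩, ?_⟩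
    · rw [inner_neg_left, hw, inner_smul_left]
      simp only [conj_trivial, Left.neg_nonpos_iff]
      exact mul_nonneg (inv_nonneg.2 hZ.le) (h3 x hx)
    · rw [← hα, ← hβ, inner_neg_left, real_inner_comm, e1, e5]
      module
  · refine ⟨w, ⟨hp, nw, fun x hx => ?_⟩, ?_⟩
    · rw [hw, inner_smul_left]
      simp only [conj_trivial]
      exact mul_nonpos_of_nonneg_of_nonpos (inv_nonneg.2 hZ.le) (h3 x hx)
    · rw [← hα, ← hβ, real_inner_comm, e1, e5]

/-- **Theorem.** For every fat disk-polygon `D` and every `0 < ε ≤ r(D)`, the rounded body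
`D(ε)` has a shortest generalized billiard trajectory with two sides, and every shortest
generalized billiard trajectory of `D(ε)` has exactly two sides. -/
theorem result (C : Finset Plane) (D : Set Plane) (hD : IsDiskPolygon C D) (hfat : IsFat C)
    (ε : ℝ) (hε : 0 < ε) (hr : ε ≤ inradius D) :
    (∃ p : ZMod 2 → Plane, IsShortest (rounded D ε) 2 p) ∧
      ∀ (n : ℕ) (p : ZMod n → Plane), IsShortest (rounded D ε) n p → n = 2 := by
  have hA := exists_ball hD hr
  obtain ⟨K, hK⟩ : ∃ K, K = rounded D ε := ⟨_, rfl⟩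
  rw [← hK]
  have hKS : K = KSet C ε := by rw [hK, rounded_eq C hε hD.eq]
  have G : Good K := by rw [hKS]; exact good_KSet hD.nonempty hfat hε hA
  have hclosed : IsClosed K := G.compact.isClosed
  have hsub : frontier K ⊆ K := hclosed.frontier_subset
  obtain ⟨x, y, u, m, hx, hy, hxy, hm0, hm2, hm⟩ := double_normal G
  have hdist : dist x y = 2 - m := by
    rw [dist_eq_norm, hxy, norm_smul, hx.2.1, mul_one, Real.norm_eq_abs,
      abs_of_pos (by linarith)]
  have hxyne : x ≠ y := by
    intro h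
    rw [h, dist_self] at hdist
    linarith
  -- every trajectory with at least three sides is long
  have hlong : ∀ (n : ℕ) (p : ZMod n → Plane), IsGenBilliard K n p → 3 ≤ n →
      2 * (2 - m) < length n p := by
    rintro n p ⟨hn, hfr, hne, hbis⟩ hn3
    have := path_long G hm0 hm hn3 (p := fun i : ℕ => p (i : ZMod n)) (by
        intro i
        simp) (fun i => hsub (hfr _)) (fun i => by
        have := hne (i : ZMod n)
        simpa using this) (fun i => by
        obtain ⟨z, hz, h1, h2, h3⟩ := hbis ((i : ZMod n) + 1)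
        rw [add_sub_cancel_right] at h1 h2
        have hb : p ((i : ZMod n) + 1 + 1) ≠ p ((i : ZMod n) + 1) := (hne _).symm
        obtain ⟨v, hv, hv2⟩ := reflect (hsub (hfr ((i : ZMod n) + 1))) (hne (i : ZMod n)) hb hz
          h1 h2 h3
        refine ⟨v, by simpa using hv, ?_⟩
        have e : ((i + 2 : ℕ) : ZMod n) = (i : ZMod n) + 1 + 1 := by push_cast; ring
        have e' : ((i + 1 : ℕ) : ZMod n) = (i : ZMod n) + 1 := by push_cast; ring
        rw [e, e']
        exact hv2)
    refine this.trans_le (le_of_eq ?_)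
    rw [length]
    refine Finset.sum_congr rfl fun i _ => ?_
    simp
  -- every trajectory with two sides is a double normal
  have htwo : ∀ (p : ZMod 2 → Plane), IsGenBilliard K 2 p → 2 * (2 - m) ≤ length 2 p := by
    rintro p ⟨hn, hfr, hne, hbis⟩
    have h01 : p 0 ≠ p 1 := by simpa using hne 0
    have h10 : p 1 ≠ p 0 := h01.symm
    have hsame : ∀ (i j : ZMod 2), i - 1 = j → i + 1 = j → ∃ v, IsN K (p i) v ∧
        ‖p j - p i‖⁻¹ • (p j - p i) = -v := by
      intro i j hij hij'
      obtain ⟨z, hz, h1, h2, h3⟩ := hbis i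
      rw [hij, hij'] at h1 h2
      have hb : p j ≠ p i := by rw [← hij']; exact (hne i).symm
      have hang : ∠ (p j) (p i) (p j) = 0 := EuclideanGeometry.angle_self_of_ne hb
      rw [hang, zero_div] at h1 h2
      obtain ⟨v, hv, hv2⟩ := reflect (hsub (hfr i)) hb hb hz (by rw [h1, hang, zero_div])
        (by rw [h2, hang, zero_div]) h3
      refine ⟨v, hv, ?_⟩
      obtain ⟨α, hα⟩ : ∃ α, α = ‖p j - p i‖⁻¹ • (p j - p i) := ⟨_, rfl⟩
      rw [← hα] at hv2 ⊢
      have hB : 0 < ‖p j - p i‖ := norm_pos_iff.2 (sub_ne_zero.2 hb)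
      have nα : ‖α‖ = 1 := by
        rw [hα, norm_smul, norm_inv, norm_norm, inv_mul_cancel₀ hB.ne']
      have e1 : α = ⟪v, α⟫_ℝ • v := by
        have e2 : (2 : ℝ) • α = (2 : ℝ) • (⟪v, α⟫_ℝ • v) := by
          rw [smul_smul]
          nth_rewrite 1 [two_smul]
          nth_rewrite 1 [hv2]
          abel
        exact smul_right_injective _ (two_ne_zero (α := ℝ)) e2
      have e3 : ⟪v, α⟫_ℝ < 0 := by
        have := inner_neg_of_normal G hv (hsub (hfr j)) hb
        rw [hα, inner_smul_right]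
        exact mul_neg_of_pos_of_neg (inv_pos.2 hB) this
      have e4 : |⟪v, α⟫_ℝ| = 1 := by
        have := congrArg norm e1
        rw [norm_smul, hv.2.1, nα, mul_one, Real.norm_eq_abs] at this
        exact this.symm
      rw [abs_of_neg e3] at e4
      have e5 : ⟪v, α⟫_ℝ = -1 := by linarith
      rw [e1, e5, neg_one_smul]
    obtain ⟨v, hv, hv2⟩ := hsame 0 1 (by decide) (by decide)
    obtain ⟨v', hv', hv2'⟩ := hsame 1 0 (by decide) (by decide)
    have hvv : v' = -v := by
      rw [← hv2, ← neg_eq_iff_eq_neg.2 hv2'.symm.symm, norm_sub_rev, ← neg_sub (p 1) (p 0), smul_neg,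
        neg_neg]
    rw [hvv] at hv'
    have h0 : 2 - m ≤ dist (p 0) (p 1) := by
      have := width_ge hm hv hv'
      rw [dist_eq_norm]
      exact this.trans (inner_le_of_norm hv.2.1 le_rfl)
    have hl : length 2 p = dist (p 0) (p 1) + dist (p 1) (p 0) := by
      rw [length, Finset.sum_range_succ, Finset.sum_range_succ, Finset.sum_range_zero, zero_add]
      have e2 : ((1 : ℕ) : ZMod 2) + 1 = 0 := by decide
      rw [e2]
      simp
    rw [hl, dist_comm (p 1) (p 0)]
    linarith
  -- the two-periodic path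
  obtain ⟨q, hq0, hq1⟩ : ∃ q : ZMod 2 → Plane, q 0 = x ∧ q 1 = y :=
    ⟨fun i => if i = 0 then x else y, by simp, by simp⟩
  have hqB : IsGenBilliard K 2 q := by
    refine ⟨le_rfl, ?_, ?_, ?_⟩
    · intro i
      fin_cases i
      · exact hq0 ▸ front_of_normal hclosed hx
      · exact hq1 ▸ front_of_normal hclosed hy
    · intro i
      fin_cases i
      · exact fun h => hxyne (by rw [← hq0, ← hq1]; exact h)
      · exact fun h => hxyne (by rw [← hq0, ← hq1]; exact h.symm)
    · intro i
      fin_cases i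
      · refine ⟨y, hq0 ▸ hxyne.symm, ?_, ?_, Or.inl ?_⟩
        · change ∠ (q 1) (q 0) y = ∠ (q 1) (q 0) (q 1) / 2
          rw [hq0, hq1, EuclideanGeometry.angle_self_of_ne hxyne.symm, zero_div]
        · change ∠ y (q 0) (q 1) = ∠ (q 1) (q 0) (q 1) / 2
          rw [hq0, hq1, EuclideanGeometry.angle_self_of_ne hxyne.symm, zero_div]
        · intro w hw
          change 0 ≤ ⟪y - q 0, w - q 0⟫_ℝ
          rw [hq0, ← neg_sub x y, hxy, inner_neg_left, inner_smul_left]
          simp only [conj_trivial, Left.nonneg_neg_iff]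
          exact mul_nonpos_of_nonneg_of_nonpos (by linarith) (hx.2.2 w hw)
      · refine ⟨x, hq1 ▸ hxyne, ?_, ?_, Or.inl ?_⟩
        · change ∠ (q 0) (q 1) x = ∠ (q 0) (q 1) (q 0) / 2
          rw [hq0, hq1, EuclideanGeometry.angle_self_of_ne hxyne, zero_div]
        · change ∠ x (q 1) (q 0) = ∠ (q 0) (q 1) (q 0) / 2
          rw [hq0, hq1, EuclideanGeometry.angle_self_of_ne hxyne, zero_div]
        · intro w hw
          change 0 ≤ ⟪x - q 1, w - q 1⟫_ℝ
          have := hy.2.2 w hw
          rw [inner_neg_left] at this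
          rw [hq1, hxy, inner_smul_left]
          simp only [conj_trivial]
          exact mul_nonneg (by linarith) (by linarith)
  have hql : length 2 q = 2 * (2 - m) := by
    rw [length, Finset.sum_range_succ, Finset.sum_range_succ, Finset.sum_range_zero, zero_add]
    have e2 : ((1 : ℕ) : ZMod 2) + 1 = 0 := by decide
    rw [e2]
    simp only [Nat.cast_zero, zero_add, Nat.cast_one]
    rw [hq0, hq1, dist_comm y x, hdist]
    ring
  refine ⟨⟨q, hqB, ?_⟩, ?_⟩
  · intro n p hp
    rw [hql]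
    rcases lt_or_ge n 3 with hn | hn
    · have : n = 2 := by have := hp.1; omega
      subst this
      exact htwo p hp
    · exact (hlong n p hp hn).le
  · rintro n p ⟨hp, hmin⟩
    by_contra hne
    have hn3 : 3 ≤ n := by have := hp.1; omega
    have h1 := hlong n p hp hn3
    have h2 := hmin 2 q hqB
    rw [hql] at h2
    linarith

end Pool.Agent.Results.MP_217bbd_co.TwoBounce
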